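import Pool.Agent.H96.CM.Fin

/-!
# Direct factors of cyclic groups sharing many elements with a residue system

A full positive answer to Q1. Let `A` be a direct factor of `ZMod ω` with `n` elements. Either `A`
is a complete set of residues modulo `n`, or every residue class modulo `n` that meets `A` contains
at least two elements of `A`; in the second case `A` meets at most `n / 2` classes.
-/

namespace Pool.Agent.Results.MP_3e256f_co.DirectFactors

open Pool.Agent.H96.CM

/-- `A` is a direct factor of the cyclic group of order `ω`. -/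
def IsDirectFactor {ω : ℕ} (A : Finset (ZMod ω)) : Prop :=
  ∃ C : Finset (ZMod ω), ∀ g : ZMod ω,
    ∃! x : ZMod ω × ZMod ω, x.1 ∈ A ∧ x.2 ∈ C ∧ x.1 + x.2 = g

/-- `S` has `n` elements, pairwise incongruent modulo `n`. -/
def IsCompleteResidues {ω : ℕ} (n : ℕ) (S : Finset (ZMod ω)) : Prop :=
  S.card = n ∧ ∀ x ∈ S, ∀ y ∈ S, x.val ≡ y.val [MOD n] → x = y

theorem til_of_direct {ω : ℕ} [NeZero ω] {A C : Finset (ZMod ω)}
    (h : ∀ g : ZMod ω, ∃! x : ZMod ω × ZMod ω, x.1 ∈ A ∧ x.2 ∈ C ∧ x.1 + x.2 = g) :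
    Til (A.image ZMod.val) (C.image ZMod.val) ω := by
  intro m
  obtain ⟨⟨a, c⟩, ⟨ha, hc, hac⟩, huniq⟩ := h (m : ZMod ω)
  unfold cnt
  rw [Finset.card_eq_one]
  refine ⟨(a.val, c.val), ?_⟩
  ext ⟨u, v⟩
  simp only [Finset.mem_filter, Finset.mem_product, Finset.mem_image, Finset.mem_singleton,
    Prod.mk.injEq]
  constructor
  · rintro ⟨⟨⟨a', ha', hu⟩, ⟨c', hc', hv⟩⟩, hm⟩
    have h1 : a' + c' = (m : ZMod ω) := by
      have h2 : ((u + v : ℕ) : ZMod ω) = (m : ZMod ω) := (ZMod.natCast_eq_natCast_iff _ _ _).2 hm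
      rw [Nat.cast_add, ← hu, ← hv, ZMod.natCast_zmod_val, ZMod.natCast_zmod_val] at h2
      exact h2
    have h3 := huniq (a', c') ⟨ha', hc', h1⟩
    rw [Prod.mk.injEq] at h3
    rw [← hu, ← hv, h3.1, h3.2]
    exact ⟨rfl, rfl⟩
  · rintro ⟨rfl, rfl⟩
    refine ⟨⟨⟨a, ha, rfl⟩, ⟨c, hc, rfl⟩⟩, ?_⟩
    have h2 : ((a.val + c.val : ℕ) : ZMod ω) = (m : ZMod ω) := by
      rw [Nat.cast_add, ZMod.natCast_zmod_val, ZMod.natCast_zmod_val]
      exact hac
    exact (ZMod.natCast_eq_natCast_iff _ _ _).1 h2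

/-- **Full answer to Q1.** -/
theorem result : ∀ ω n : ℕ, 0 < ω → 0 < n → ∀ A : Finset (ZMod ω), IsDirectFactor A →
    A.card = n → ∀ B : Finset (ZMod ω), IsCompleteResidues n B →
    n + 1 ≤ 2 * (A ∩ B).card → IsCompleteResidues n A := by
  classical
  intro ω n hω hn A hA hAn B hB hAB
  have : NeZero ω := ⟨hω.ne'⟩
  obtain ⟨C, hC⟩ := hA
  have hT := til_of_direct hC
  have hcard : (A.image ZMod.val).card = n := by
    rw [Finset.card_image_of_injective _ (ZMod.val_injective ω), hAn]
  rcases main_alt ω _ _ hω hT with h | h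
  · refine ⟨hAn, fun x hx y hy hxy => ?_⟩
    refine ZMod.val_injective ω (h _ (Finset.mem_image_of_mem _ hx) _
      (Finset.mem_image_of_mem _ hy) ?_)
    rw [hcard]
    exact hxy
  · exfalso
    rw [hcard] at h
    have h1 : 2 * ((A.image ZMod.val).image (fun a => a % n)).card ≤ (A.image ZMod.val).card := by
      refine Finset.mul_card_image_le_card _ _ fun r hr => ?_
      obtain ⟨x, hx, hxr⟩ := Finset.mem_image.1 hr
      obtain ⟨y, hy, hyx, hxy⟩ := h x hx
      have h2 : ({y, x} : Finset ℕ) ⊆ (A.image ZMod.val).filter (fun a => a % n = r) := by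
        intro z hz
        rw [Finset.mem_insert, Finset.mem_singleton] at hz
        rw [Finset.mem_filter]
        rcases hz with rfl | rfl
        · exact ⟨hy, by rw [← hxr]; exact hxy.symm⟩
        · exact ⟨hx, hxr⟩
      have h3 := Finset.card_le_card h2
      rwa [Finset.card_pair hyx] at h3
    have h2 : (A ∩ B).card ≤ ((A.image ZMod.val).image (fun a => a % n)).card := by
      refine Finset.card_le_card_of_injOn (fun x => x.val % n) ?_ ?_
      · intro x hx
        have hx' := Finset.mem_inter.1 (Finset.mem_coe.1 hx)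
        exact Finset.mem_coe.2 (Finset.mem_image_of_mem (fun a => a % n)
          (Finset.mem_image_of_mem ZMod.val hx'.1))
      · intro x hx y hy hxy
        have hx' := Finset.mem_inter.1 (Finset.mem_coe.1 hx)
        have hy' := Finset.mem_inter.1 (Finset.mem_coe.1 hy)
        exact hB.2 x hx'.2 y hy'.2 hxy
    rw [hcard] at h1
    omega

end Pool.Agent.Results.MP_3e256f_co.DirectFactors
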